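import Pool.Agent.U36.TS.Stm

/-! Package EX of project TS: exponents of the action on roots of units. -/

set_option autoImplicit false

namespace Pool.Agent.U36.TS

namespace EX

lemma root_unity {M : Type} [Field M] {l m : ℕ} {ζ : M} (hl : 0 < l) (h : IsPrimitiveRoot ζ (l ^ m))
    {a b : M} (hb : b ≠ 0) (hab : a ^ l ^ m = b ^ l ^ m) : ∃ k : ℤ, a = ζ ^ k * b := by
  have h1 : (a / b) ^ l ^ m = 1 := by
    rw [div_pow, hab, div_self (pow_ne_zero _ hb)]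
  have : NeZero (l ^ m) := ⟨(pow_pos hl m).ne'⟩
  obtain ⟨i, _, hi⟩ := h.eq_pow_of_pow_eq_one h1
  refine ⟨(i : ℤ), ?_⟩
  rw [zpow_natCast, hi, div_mul_cancel₀ _ hb]

lemma zp {M : Type} [Field M] {l m : ℕ} {ζ : M} (h : IsPrimitiveRoot ζ (l ^ m)) (hz : ζ ≠ 0)
    (j j' : ℤ) : ζ ^ j = ζ ^ j' ↔ (l : ℤ) ^ m ∣ j - j' := by
  have h1 : ζ ^ (j - j') = 1 ↔ (l : ℤ) ^ m ∣ j - j' := by
    rw [h.zpow_eq_one_iff_dvd]
    push_cast
    rfl
  rw [← h1, zpow_sub₀ hz, div_eq_one_iff_eq (zpow_ne_zero _ hz)]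

end EX

theorem t_EX : S_EX := by
  intro M _ l q th T Ph U h S hS
  have hl : 0 < l := h.prime.pos
  have hne : ∀ m, th m ≠ 0 := fun m => (h.prim m).ne_zero (pow_pos hl m).ne'
  have hSz : ∀ m (i : ℤ), S (th m ^ i) = th m ^ i := fun m i => by rw [map_zpow₀, hS]
  have hrt : ∀ x ∈ U, ∀ m, ∃ y, y ^ l ^ m = x ∧ y ≠ 0 := by
    intro x hx m
    obtain ⟨y, hy⟩ := h.root x hx m
    refine ⟨y, hy, ?_⟩
    rintro rfl
    rw [zero_pow (pow_pos hl m).ne'] at hy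
    exact h.ne_zero x hx hy.symm
  have key : ∀ x ∈ U, ∀ m y i, y ^ l ^ m = x → S y = th m ^ i * y → Ex S th l m x i := by
    intro x hx m y i hy hSy w hw
    have hy0 : y ≠ 0 := by
      rintro rfl
      rw [zero_pow (pow_pos hl m).ne'] at hy
      exact h.ne_zero x hx hy.symm
    obtain ⟨k, hk⟩ := EX.root_unity hl (h.prim m) hy0 (hw.trans hy.symm)
    rw [hk, map_mul, hSz, hSy]
    ring
  have hcomp : ∀ m k, th (m + k) ^ l ^ k = th m := by
    intro m k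
    induction k with
    | zero => simp
    | succ k ih => rw [pow_succ', pow_mul, ← add_assoc, h.comp, ih]
  refine ⟨?_, ?_, ?_, ?_, ?_, ?_⟩
  · intro x hx hSx m
    obtain ⟨y, hy, hy0⟩ := hrt x hx m
    have h1 : (S y) ^ l ^ m = y ^ l ^ m := by rw [← map_pow, hy, hSx]
    obtain ⟨k, hk⟩ := EX.root_unity hl (h.prim m) hy0 h1
    exact ⟨k, key x hx m y k hy hk⟩
  · intro x hx m j j' hj hj'
    obtain ⟨y, hy, hy0⟩ := hrt x hx m
    have h1 := (hj y hy).symm.trans (hj' y hy)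
    exact (EX.zp (h.prim m) (hne m) j j').1 (mul_right_cancel₀ hy0 h1)
  · intro x _ m j j' hd hj y hy
    rw [hj y hy, (EX.zp (h.prim m) (hne m) j j').2 hd]
  · intro x hx y hy m i j hi hj
    obtain ⟨u, hu, hu0⟩ := hrt x hx m
    obtain ⟨v, hv, hv0⟩ := hrt y hy m
    refine key _ (h.mul x hx y hy) m (u * v) (i + j) (by rw [mul_pow, hu, hv]) ?_
    rw [map_mul, hi u hu, hj v hv, zpow_add₀ (hne m)]
    ring
  · intro x hx m i hi w hw
    have h1 : (w⁻¹) ^ l ^ m = x := by rw [inv_pow, hw, inv_inv]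
    have h2 := hi _ h1
    rw [map_inv₀] at h2
    have h3 : S w = (th m ^ i * w⁻¹)⁻¹ := by rw [← h2, inv_inv]
    rw [h3, mul_inv, inv_inv, zpow_neg]
  · intro x hx m k i hi
    obtain ⟨z, hz, hz0⟩ := hrt x hx (m + k)
    refine key x hx m (z ^ l ^ k) i (by rw [← pow_mul, ← pow_add, add_comm k m, hz]) ?_
    rw [map_pow, hi z hz, mul_pow, ← zpow_natCast (th (m + k) ^ i), ← zpow_mul, mul_comm i, zpow_mul,
      zpow_natCast, hcomp]

end Pool.Agent.U36.TS
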